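import Pool.Agent.Q196.NP.Lin

/-!
# MP_28b04d_gt, Q1: diffeomorphisms of `CP^n` joined to the identity by a homotopy which is nearly
linear at one scale

`CP^n` is modelled as the set of Hermitian projections of rank one, as in the frozen statement.
A diffeomorphism `φ` of `CP^n` which acts trivially on the homology has a lift `F` to a smooth map
of `ℂ^(n+1) ∖ 0`, homogeneous under multiplication by complex numbers. There is a constant `ε > 0`,
depending only on `n`, such that `φ` is smoothly isotopic to the identity as soon as a lift `F` of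
it is joined to a complex linear isomorphism by a continuous path `F_t` of homogeneous maps all of
which are, at one scale `ρ ≤ 1/2`, close to real linear isomorphisms with constant `ε` around each
point of the unit sphere (the linear isomorphism may depend on `t` and on the point in any way; the
maps `F_t` need be neither injective nor differentiable for `0 < t < 1`), and `F` is close to
linear with constant `ε` at all scales `≤ ρ`.

The proof mollifies the homogeneous maps at the scale `ρ`, with a radial kernel, so that they stay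
homogeneous; the mollified maps are local diffeomorphisms; `F` is joined to its mollification by
letting the scale tend to `0`; and a path of homogeneous local diffeomorphisms which starts at the
identity consists of bijections.
-/

set_option autoImplicit false

open Set Function
open scoped ContDiff

noncomputable section

namespace Pool.Agent.Results.MP_28b04d_gt.NearlyLinearHomotopy

/-- `ℂ^(n+1)` -/
abbrev V (n : ℕ) : Type := EuclideanSpace ℂ (Fin (n + 1))

/-- the complex `(n+1) × (n+1)` matrices -/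
abbrev Mat (n : ℕ) : Type := Fin (n + 1) → Fin (n + 1) → ℂ

/-- the projective space `CP^n`: the Hermitian idempotent matrices of trace one -/
def CP (n : ℕ) : Set (Mat n) :=
  {P | (∀ i j, P j i = star (P i j)) ∧ (∀ i j, ∑ k, P i k * P k j = P i j) ∧ ∑ i, P i i = 1}

/-- the point of `CP^n` with homogeneous coordinates `v`: the orthogonal projection onto the line
of `v`, for `v ≠ 0` -/
def line {n : ℕ} (v : V n) : Mat n := fun i j => v i * star (v j) / ((‖v‖ ^ 2 : ℝ) : ℂ)

/-- `φ` is a diffeomorphism of `CP^n` -/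
def IsDiffeo {n : ℕ} (φ : Mat n → Mat n) : Prop :=
  ContDiff ℝ ∞ φ ∧ (∀ P ∈ CP n, φ P ∈ CP n) ∧ ∃ ψ : Mat n → Mat n, ContDiff ℝ ∞ ψ ∧
    ∀ P ∈ CP n, ψ P ∈ CP n ∧ ψ (φ P) = P ∧ φ (ψ P) = P

/-- around `v`, at the scale `r`, some real linear map composed with `F` is `ε r`-close to a
translation -/
def CloseToLinear {n : ℕ} (ε : ℝ) (F : V n → V n) (v : V n) (r : ℝ) : Prop :=
  ∃ L : V n →L[ℝ] V n, ∀ w, ‖w‖ ≤ r → ‖L (F (v + w) - F v) - w‖ ≤ ε * r

/-- `φ` is smoothly isotopic to the identity, as in the frozen statement -/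
def IsotopicToId {n : ℕ} (φ : Mat n → Mat n) : Prop :=
  ∃ K : ℝ × Mat n → Mat n, ContDiff ℝ ∞ K ∧ (∀ t : ℝ, ∀ P ∈ CP n, K (t, P) ∈ CP n) ∧
    (∀ P ∈ CP n, K (0, P) = P) ∧ (∀ P ∈ CP n, K (1, P) = φ P) ∧
    ∀ t : ℝ, ∃ L : Mat n → Mat n, ContDiff ℝ ∞ L ∧
      ∀ P ∈ CP n, L P ∈ CP n ∧ L (K (t, P)) = P ∧ K (t, L P) = P

theorem result (n : ℕ) : ∃ ε : ℝ, 0 < ε ∧
    ∀ φ : Mat n → Mat n, IsDiffeo φ →
    ∀ (A : V n ≃L[ℂ] V n) (F : ℝ → V n → V n) (ρ : ℝ), 0 < ρ → ρ ≤ 1 / 2 →
      ContinuousOn (uncurry F) (Icc (0 : ℝ) 1 ×ˢ univ) →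
      (∀ t ∈ Icc (0 : ℝ) 1, ∀ (c : ℂ) (v : V n), F t (c • v) = c • F t v) →
      (∀ v, F 0 v = A v) →
      ContDiffOn ℝ ∞ (F 1) {0}ᶜ →
      (∀ v, v ≠ 0 → φ (line v) = line (F 1 v)) →
      (∀ t ∈ Icc (0 : ℝ) 1, ∀ v, ‖v‖ = 1 → CloseToLinear ε (F t) v ρ) →
      (∀ v, ‖v‖ = 1 → ∀ r, 0 < r → r ≤ ρ → CloseToLinear ε (F 1) v r) →
      IsotopicToId φ := by
  refine ⟨Pool.Agent.Q196.NP.eps (V n), Pool.Agent.Q196.NP.eps_pos, ?_⟩
  intro φ hφ A F ρ hρ hρ1 hFc hhom h0 hsm hlift hn hn1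
  obtain ⟨-, hφm, ψ, hψs, hψ⟩ := hφ
  have hF1ne : ∀ v, v ≠ 0 → F 1 v ≠ 0 := by
    intro v hv h
    have h1 : line (F 1 v) ∈ CP n := by
      rw [← hlift v hv]
      exact hφm _ (Pool.Agent.Q196.NP.line_mem hv)
    have h2 : ∑ i, line (F 1 v) i i = 1 := h1.2.2
    rw [h] at h2
    have h3 : ∀ i, line (0 : V n) i i = 0 := by
      intro i
      show (0 : ℂ) * star (0 : ℂ) / _ = 0
      simp
    rw [Finset.sum_congr rfl fun i _ => h3 i] at h2
    simp at h2
  have h11 : (1 : ℝ) ∈ Icc (0 : ℝ) 1 := ⟨zero_le_one, le_rfl⟩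
  -- the extended family, composed with the inverse of `A`
  let H : ℝ → V n → V n := fun t v => A.symm (F (projIcc (0:ℝ) 1 zero_le_one t) v)
  have hHc : Continuous (uncurry H) := by
    have h1 : Continuous fun p : ℝ × V n => (((projIcc (0:ℝ) 1 zero_le_one p.1 : ℝ)), p.2) :=
      (continuous_subtype_val.comp (continuous_projIcc.comp continuous_fst)).prodMk continuous_snd
    exact A.symm.continuous.comp
      (hFc.comp_continuous h1 fun p => ⟨(projIcc (0:ℝ) 1 zero_le_one p.1).2, mem_univ _⟩)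
  have hH0 : H 0 = fun v => v := by
    funext v
    show A.symm (F (projIcc (0:ℝ) 1 zero_le_one 0) v) = v
    rw [projIcc_left]
    exact (congrArg A.symm (h0 v)).trans (A.symm_apply_apply v)
  have hH1 : H 1 = fun v => A.symm (F 1 v) := by
    funext v
    show A.symm (F (projIcc (0:ℝ) 1 zero_le_one 1) v) = A.symm (F 1 v)
    rw [projIcc_right]
  have hr : ∀ (r : ℝ) (v : V n), r • v = ((r : ℂ)) • v := fun r v => (Complex.coe_smul r v).symm
  have hhomC : ∀ t, ∀ (c : ℂ) v, H t (c • v) = c • H t v := by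
    intro t c v
    show A.symm (F (projIcc (0:ℝ) 1 zero_le_one t) (c • v)) =
      c • A.symm (F (projIcc (0:ℝ) 1 zero_le_one t) v)
    rw [hhom _ (projIcc (0:ℝ) 1 zero_le_one t).2 c v, map_smul]
  have hhomH : ∀ t, ∀ r : ℝ, 0 ≤ r → ∀ v, H t (r • v) = r • H t v := by
    intro t r _ v
    rw [hr, hr]
    exact hhomC t _ _
  have hU : ∀ t, ∀ R ∈ Pool.Agent.Q196.NP.U1 n, ∀ v, H t (R v) = R (H t v) := by
    rintro t _ ⟨μ, hμ, rfl⟩ v
    exact hhomC t μ v
  have hsm1 : ContDiffOn ℝ ∞ (fun v => A.symm (F 1 v)) {0}ᶜ :=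
    ((A.symm : V n →L[ℂ] V n).restrictScalars ℝ).contDiff.comp_contDiffOn hsm
  have hHD : Pool.Agent.Q196.NP.HD (Pool.Agent.Q196.NP.U1 n) (fun v => A.symm (F 1 v)) := by
    refine ⟨?_, ?_, ?_⟩
    · intro r hr0 v
      have h1 := hhomH 1 r hr0 v
      rwa [hH1] at h1
    · intro R hR v
      have h1 := hU 1 R hR v
      rwa [hH1] at h1
    · intro v hv
      obtain ⟨B, hB⟩ := Pool.Agent.Q196.NP.lift_der (φ := φ) (ψ := ψ) hψs
        (fun P hP => (hψ P hP).2.1) (fun c v => hhom 1 h11 c v) hsm hF1ne hlift hv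
      exact ⟨B.trans (A.symm.restrictScalars ℝ),
        ((A.symm.restrictScalars ℝ).hasFDerivAt (x := F 1 v)).comp v hB⟩
  have hnear : ∀ (f : V n → V n) (v : V n) (r : ℝ),
      CloseToLinear (Pool.Agent.Q196.NP.eps (V n)) f v r →
      Pool.Agent.Q196.NP.Near (Pool.Agent.Q196.NP.eps (V n)) (fun v => A.symm (f v)) v r := by
    rintro f v r ⟨L, hL⟩
    refine ⟨L.comp ((A : V n →L[ℂ] V n).restrictScalars ℝ), fun w hw => ?_⟩
    have h1 := hL w hw
    have h2 : (L.comp ((A : V n →L[ℂ] V n).restrictScalars ℝ))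
        (A.symm (f (v + w)) - A.symm (f v)) = L (f (v + w) - f v) := by
      show L (A (A.symm (f (v + w)) - A.symm (f v))) = _
      rw [map_sub, A.apply_symm_apply, A.apply_symm_apply]
    rw [h2]
    exact h1
  have key : Pool.Agent.Q196.NP.Iso (Pool.Agent.Q196.NP.U1 n) (fun v => v) (H 1) := by
    refine Pool.Agent.Q196.NP.iso_of_near hHc hhomH hU hρ hρ1 ?_ hH0 ?_ ?_ ?_
    · intro t v hv
      exact hnear _ _ _ (hn _ (projIcc (0:ℝ) 1 zero_le_one t).2 v hv)
    · rw [hH1]; exact hsm1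
    · rw [hH1]; exact hHD
    · rw [hH1]
      exact fun v hv r hr0 hr1 => hnear _ _ _ (hn1 v hv r hr0 hr1)
  rw [hH1] at key
  have key2 := key.left_comp A
  have h5 : (fun v => A (A.symm (F 1 v))) = F 1 := funext fun v => A.apply_symm_apply _
  rw [h5] at key2
  exact Pool.Agent.Q196.NP.proj_isotopy hlift ((Pool.Agent.Q196.NP.iso_linear A).trans key2)

end Pool.Agent.Results.MP_28b04d_gt.NearlyLinearHomotopy
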