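import Mathlib
import Pool.Agent.Q235.TF.MoserT

/-!
# Diffeomorphisms and paths of degenerately tamed almost complex structures

Let `X` be a closed manifold, `τ` a symplectic form on `X` and `f` a diffeomorphism of `X`. Let `J₀`
be an almost complex structure tamed by `τ` and `J₁` one tamed by the pull-back of `τ` by `f`. Then
`f` is isotopic to a symplectomorphism of `τ` if and only if `f` preserves the class of `τ` and `J₀`
and `J₁` can be joined by a path of almost complex structures which are weakly or singularly tamed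
in this class.
-/

set_option autoImplicit false

open Set Filter Topology MeasureTheory
open scoped Manifold ContDiff

noncomputable section

namespace Pool.Agent.Results.MP_28b04d_gt.TamedPaths

open Pool.Agent.Y501.SYP
open Pool.Agent.Q235.SZ (SForm InClass Nondeg)
open Pool.Agent.Q235.MO (pull Isotopic IsDiffeo)
open Pool.Agent.Q235.TF (AStr Structures)

section

variable {V : Type} [NormedAddCommGroup V] [NormedSpace ℝ V]
  {X : Type} [TopologicalSpace X] [ChartedSpace V X]

/-- the symplectomorphisms of `τ` -/
def IsSymplecto (τ : Form V X 2) (g : X → X) : Prop := IsDiffeo V g ∧ pull g τ = τ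

end

theorem result (d : ℕ) (hd : 1 ≤ d) (X : Type) [TopologicalSpace X] [ChartedSpace (ES d) X]
    [IsManifold 𝓘(ℝ, ES d) ∞ X] [CompactSpace X] [T2Space X] (τ : SForm (ES d) X)
    (hc : IsClosedForm τ.1) (hτ : Nondeg τ.1) (f : X → X) (hf : IsDiffeo (ES d) f)
    (J₀ J₁ : AStr (ES d) X) (h0 : ∀ x, TamesAt τ.1 J₀.1 x)
    (h1 : ∀ x, TamesAt (pull f τ.1) J₁.1 x) :
    (∃ g : X → X, IsSymplecto τ.1 g ∧ Isotopic (ES d) g f) ↔
      InClass τ.1 (pull f τ.1) ∧ JoinedIn (Structures τ.1) J₀ J₁ :=
  Pool.Agent.Q235.TF.tamedPaths hd hc hτ hf h0 h1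

end Pool.Agent.Results.MP_28b04d_gt.TamedPaths
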