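import Mathlib
import Pool.Agent.Q235.MO.Fin

/-!
# Diffeomorphisms isotopic to symplectomorphisms

Let `X` be a closed manifold of dimension `2 n` and `τ` a symplectic form on `X`. A diffeomorphism
`f` of `X` is isotopic to a symplectomorphism of `τ` if and only if its pull-back of `τ` can be
joined to `τ` by a path of closed forms in the class of `τ` with thin degenerations. In particular
this holds if `f` is joined to the identity by a smooth homotopy of maps whose pull-backs of `τ` are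
thinly degenerate.
-/

set_option autoImplicit false

open Set Filter Topology MeasureTheory
open scoped Manifold ContDiff

noncomputable section

namespace Pool.Agent.Results.MP_28b04d_gt.ThinIsotopy

open Pool.Agent.Y501.SYP
open Pool.Agent.Q235.SZ (SForm SmallFor InClass)
open Pool.Agent.Q235.MO (pull pullS SmFam slice_smooth Isotopic IsDiffeo)

section

variable {V : Type} [NormedAddCommGroup V] [NormedSpace ℝ V]
  {X : Type} [TopologicalSpace X] [ChartedSpace V X]

/-- The value of `σ ^ n` on `2 n` tangent vectors `v (i, b)` (`i < n`, `b` one of the two truth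
values), up to a positive factor which depends on `n` and on the convention for the product: the
sum over the permutations `π` of the `2 n` indices of the sign of `π` times the product over `i` of
`σ (v (π (i, false)), v (π (i, true)))`. -/
def power (n : ℕ) (σ : Form V X 2) (x : X) (v : Fin n × Bool → TangentSpace 𝓘(ℝ, V) x) : ℝ :=
  ∑ π : Equiv.Perm (Fin n × Bool), ((Equiv.Perm.sign π : ℤ) : ℝ) *
    ∏ i, σ x ![v (π (i, false)), v (π (i, true))]

/-- the zeros of `σ ^ n` -/
def Zeros (n : ℕ) (σ : Form V X 2) : Set X := {x | ∀ v, power n σ x v = 0}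

/-- `σ ^ n ≥ 0` for the orientation given by `τ ^ n` -/
def Nonneg (n : ℕ) (τ σ : Form V X 2) : Prop :=
  ∀ (x : X) (v : Fin n × Bool → TangentSpace 𝓘(ℝ, V) x), 0 ≤ power n σ x v * power n τ x v

/-- The zeros of `σ ^ n` are thin: `σ ^ (n - 1)` is not zero at these points (so `σ` has rank
`2 n - 2`, its kernel is a plane), and each component `C` of the set of zeros is small at each
of its points `z`: it has zero area (two-dimensional Hausdorff measure) near `z`, or the kernel of
`σ` at `z` is not contained in the tangent space of `C` at `z`. -/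
def ThinlyDegenerate [MeasurableSpace V] [BorelSpace V] (n : ℕ) (σ : Form V X 2) : Prop :=
  ∀ z ∈ Zeros n σ, z ∉ Zeros (n - 1) σ ∧ SmallFor σ (connectedComponentIn (Zeros n σ) z) z

/-- The forms `σ` with `σ ^ n ≥ 0` for the orientation given by `τ`, for which the zeros of
`σ ^ n` are thin. -/
def Thin [MeasurableSpace V] [BorelSpace V] (n : ℕ) (τ : Form V X 2) : Set (Form V X 2) :=
  {σ | Nonneg n τ σ ∧ ThinlyDegenerate n σ}

/-- the smooth closed forms cohomologous to `τ` which belong to `Thin n τ` -/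
def ThinClass [MeasurableSpace V] [BorelSpace V] (n : ℕ) (τ : SForm V X) : Set (SForm V X) :=
  {σ | InClass τ.1 σ.1 ∧ σ.1 ∈ Thin n τ.1}

/-- the symplectomorphisms of `τ` -/
def IsSymplecto (τ : Form V X 2) (g : X → X) : Prop := IsDiffeo V g ∧ pull g τ = τ

end

section

open Pool.Agent.Q235.SN Pool.Agent.Q235.SP

variable {d n : ℕ} {X : Type} [TopologicalSpace X] [ChartedSpace (ES d) X]

theorem power_eq (σ : Form (ES d) X 2) (x : X)
    (v : Fin n × Bool → TangentSpace 𝓘(ℝ, ES d) x) :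
    power n σ x v = top (n := n) (V := ES d) (σ x) v :=
  (wedN_apply (V := ES d) (fun _ => σ x) v).symm

theorem power_frame (e : Module.Basis (Fin n × Bool) ℝ (ES d)) (σ : Form (ES d) X 2) (x : X)
    (v : Fin n × Bool → TangentSpace 𝓘(ℝ, ES d) x) :
    power n σ x v = top (n := n) (V := ES d) (σ x) e * e.det v :=
  (power_eq σ x v).trans (wedN_frame e (fun _ => σ x) v)

theorem zeros_iff (e : Module.Basis (Fin n × Bool) ℝ (ES d)) (σ : Form (ES d) X 2) (x : X) :
    x ∈ Zeros n σ ↔ top (n := n) (V := ES d) (σ x) e = 0 := by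
  constructor
  · intro h
    exact (power_eq σ x e).symm.trans (h e)
  · intro h v
    exact (power_frame e σ x v).trans (by rw [h, zero_mul])

variable {m : ℕ}

theorem rT_def (e : Module.Basis (Fin (m + 1) × Bool) ℝ (ES d)) (τ s : Form (ES d) X 2) (x : X) :
    rT e τ s x = top (n := m + 1) (V := ES d) (s x) e / top (n := m + 1) (V := ES d) (τ x) e := rfl

theorem good_of (e : Module.Basis (Fin (m + 1) × Bool) ℝ (ES d)) {τ σ : Form (ES d) X 2}
    (hτ0 : ∀ x, top (n := m + 1) (V := ES d) (τ x) e ≠ 0) (hpos : Nonneg (m + 1) τ σ)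
    (hthin : ThinlyDegenerate (m + 1) σ) : GoodN e τ σ := by
  have hD0 : Zeros (m + 1) σ = {x | rT e τ σ x = 0} := by
    ext x
    rw [zeros_iff e σ x]
    constructor
    · intro h
      exact (div_eq_zero_iff).2 (Or.inl h)
    · intro h
      exact ((div_eq_zero_iff).1 h).resolve_right (hτ0 x)
  refine ⟨fun x => ?_, fun z hz => ?_, fun z hz => ?_⟩
  · have h1 : 0 ≤ top (n := m + 1) (V := ES d) (σ x) e * top (n := m + 1) (V := ES d) (τ x) e := by
      have h0 := hpos x e
      have e1 := power_eq (n := m + 1) σ x e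
      have e2 := power_eq (n := m + 1) τ x e
      exact (congrArg₂ (· * ·) e1 e2) ▸ h0
    rw [rT_def]
    have h2 := hτ0 x
    rw [div_nonneg_iff]
    rcases lt_or_gt_of_ne h2 with h3 | h3
    · exact Or.inr ⟨by
        by_contra h4
        push Not at h4
        have := mul_neg_of_pos_of_neg h4 h3
        linarith, h3.le⟩
    · exact Or.inl ⟨by
        by_contra h4
        push Not at h4
        have := mul_neg_of_neg_of_pos h4 h3
        linarith, h3.le⟩
  · rw [← hD0] at hz
    have h6 := (hthin z hz).1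
    have h7 : ∃ v, power m σ z v ≠ 0 := by
      by_contra hc
      push Not at hc
      exact h6 hc
    obtain ⟨u, hu⟩ := h7
    exact ⟨u, fun h => hu ((power_eq σ z u).trans h)⟩
  · rw [← hD0] at hz ⊢
    exact (hthin z hz).2

theorem nonneg_of (e : Module.Basis (Fin (m + 1) × Bool) ℝ (ES d)) {τ σ : Form (ES d) X 2}
    (hτ0 : ∀ x, top (n := m + 1) (V := ES d) (τ x) e ≠ 0)
    (h : ∀ x, 0 < rT e τ σ x) : Nonneg (m + 1) τ σ := by
  intro x v
  rw [power_frame e, power_frame e]
  have h1 := h x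
  rw [rT_def] at h1
  have h8 := mul_pos h1 (pow_pos (abs_pos.2 (hτ0 x)) 2)
  rw [sq_abs, sq, ← mul_assoc, div_mul_cancel₀ _ (hτ0 x)] at h8
  have h9 := mul_nonneg h8.le (mul_self_nonneg (e.det v))
  refine le_of_le_of_eq h9 ?_
  ring

/-- nondegenerate forms with the right orientation are thin -/
theorem thin_of_pos (e : Module.Basis (Fin (m + 1) × Bool) ℝ (ES d)) {τ σ : Form (ES d) X 2}
    (hτ0 : ∀ x, top (n := m + 1) (V := ES d) (τ x) e ≠ 0)
    (h : ∀ x, 0 < rT e τ σ x) : σ ∈ Thin (m + 1) τ := by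
  refine ⟨nonneg_of e hτ0 h, fun z hz => ?_⟩
  exfalso
  have h1 := (zeros_iff e σ z).1 hz
  have h2 := h z
  rw [rT_def, h1, zero_div] at h2
  exact lt_irrefl _ h2

/-- a thin form is positive where it is nondegenerate -/
theorem pos_of_thin (e : Module.Basis (Fin (m + 1) × Bool) ℝ (ES d)) {τ σ : Form (ES d) X 2}
    (hτ0 : ∀ x, top (n := m + 1) (V := ES d) (τ x) e ≠ 0) (h : σ ∈ Thin (m + 1) τ) (x : X)
    (hx : rT e τ σ x ≠ 0) : 0 < rT e τ σ x :=
  lt_of_le_of_ne ((good_of e hτ0 h.1 h.2).1 x) (Ne.symm hx)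

variable [IsManifold 𝓘(ℝ, ES d) ∞ X]

theorem of_path [CompactSpace X] [T2Space X] (e : Module.Basis (Fin (m + 1) × Bool) ℝ (ES d))
    {τ : SForm (ES d) X} (hτ : ∀ x, top (n := m + 1) (V := ES d) (τ.1 x) e ≠ 0)
    {f : X → X} (hf : IsDiffeo (ES d) f) (h : JoinedIn (ThinClass (m + 1) τ) τ (pullS f hf.1 τ)) :
    ∃ g : X → X, IsSymplecto τ.1 g ∧ Isotopic (ES d) g f := by
  obtain ⟨γ, hγ⟩ := h
  have h0 : (γ 0) = τ := γ.source
  have h1 : (γ 1) = pullS f hf.1 τ := γ.target
  have hrel := Pool.Agent.Q235.MO.rel_thin e hτ γ.continuous (fun t => (hγ t).1)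
    (fun t => good_of e hτ (hγ t).2.1 (hγ t).2.2)
    (fun x => by
      rw [h0, Pool.Agent.Q235.MO.rT_self e hτ x]
      exact one_pos)
    (fun x => by
      have h2 : rT e τ.1 (γ 1).1 x ≠ 0 := by
        rw [h1]
        exact Pool.Agent.Q235.MO.rT_pull_ne e hτ hf x
      exact pos_of_thin e hτ (hγ 1).2 x h2)
  rw [h0, h1] at hrel
  exact Pool.Agent.Q235.MO.sympl_of_rel hf hrel

theorem joined_fam {τ : SForm (ES d) X} (hc : IsClosedForm τ.1) {F : ℝ × X → X}
    (hF : SmFam (V := ES d) F) (h0 : pull (fun x => F (0, x)) τ.1 = τ.1)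
    (hth : ∀ t ∈ Icc (0 : ℝ) 1, pull (fun x => F (t, x)) τ.1 ∈ Thin (m + 1) τ.1)
    {f : X → X} (hf : ContMDiff 𝓘(ℝ, ES d) 𝓘(ℝ, ES d) ∞ f) (h1 : ∀ x, F (1, x) = f x) :
    JoinedIn (ThinClass (m + 1) τ) τ (pullS f hf τ) := by
  have hfd : FiniteDimensional ℝ (ES d) := Pool.Agent.Q235.MO.fd_ES
  have hcont := Pool.Agent.Q235.MO.pull_continuous hF τ
  refine JoinedIn.ofLine (f := fun s : ℝ => pullS (fun x => F (s, x)) (slice_smooth hF s) τ)
    hcont.continuousOn ?_ ?_ ?_
  · exact Subtype.ext h0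
  · have h2 : (fun x => F (1, x)) = f := funext h1
    refine Subtype.ext ?_
    change pull (fun x => F (1, x)) τ.1 = pull f τ.1
    rw [h2]
  · rintro _ ⟨s, hs, rfl⟩
    exact ⟨Pool.Agent.Q235.MO.inClass_fam hF τ.2 hc h0 s, hth s hs⟩

end

section

variable {X : Type} [TopologicalSpace X] {n : ℕ} [ChartedSpace (ES (2 * n)) X]
  [IsManifold 𝓘(ℝ, ES (2 * n)) ∞ X]

/-- A diffeomorphism `f` is isotopic to a symplectomorphism of `τ` if and only if `f ^* τ` is joined
to `τ` by closed thinly degenerate forms in the class of `τ`. -/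
def PathCriterion (n : ℕ) (X : Type) [TopologicalSpace X] [ChartedSpace (ES (2 * n)) X]
    [IsManifold 𝓘(ℝ, ES (2 * n)) ∞ X] (τ : SForm (ES (2 * n)) X) : Prop :=
  ∀ (f : X → X) (hf : IsDiffeo (ES (2 * n)) f),
    (∃ g : X → X, IsSymplecto τ.1 g ∧ Isotopic (ES (2 * n)) g f) ↔
      JoinedIn (ThinClass n τ) τ (pullS f hf.1 τ)

/-- If a smooth homotopy of maps `F t` starts at a map which preserves `τ` and ends at a
diffeomorphism, and if the pull-backs of `τ` by the maps `F t` are thinly degenerate, then its end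
is isotopic to a symplectomorphism of `τ`. -/
def HomotopyCriterion (n : ℕ) (X : Type) [TopologicalSpace X] [ChartedSpace (ES (2 * n)) X]
    (τ : Form (ES (2 * n)) X 2) : Prop :=
  ∀ F : ℝ × X → X, SmFam (V := ES (2 * n)) F → pull (fun x => F (0, x)) τ = τ →
    IsDiffeo (ES (2 * n)) (fun x => F (1, x)) →
    (∀ t ∈ Icc (0 : ℝ) 1, pull (fun x => F (t, x)) τ ∈ Thin n τ) →
    ∃ g : X → X, IsSymplecto τ g ∧ Isotopic (ES (2 * n)) g (fun x => F (1, x))

end

theorem result (n : ℕ) (hn : 1 ≤ n) (X : Type) [TopologicalSpace X]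
    [ChartedSpace (ES (2 * n)) X] [IsManifold 𝓘(ℝ, ES (2 * n)) ∞ X] [CompactSpace X] [T2Space X]
    (τ : SForm (ES (2 * n)) X) (hc : IsClosedForm τ.1) (hτ : Zeros n τ.1 = ∅) :
    PathCriterion n X τ ∧ HomotopyCriterion n X τ.1 := by
  obtain ⟨m, rfl⟩ : ∃ m, n = m + 1 := ⟨n - 1, by omega⟩
  let e : Module.Basis (Fin (m + 1) × Bool) ℝ (ES (2 * (m + 1))) :=
    (EuclideanSpace.basisFun (Fin (2 * (m + 1))) ℝ).toBasis.reindex
      (Fintype.equivOfCardEq (by simp [mul_comm]))
  have hτ0 : ∀ x, Pool.Agent.Q235.SN.top (n := m + 1) (V := ES (2 * (m + 1))) (τ.1 x) e ≠ 0 := by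
    intro x h
    have h1 : x ∈ Zeros (m + 1) τ.1 := (zeros_iff e τ.1 x).2 h
    rw [hτ] at h1
    exact h1
  refine ⟨fun f hf => ⟨?_, of_path e hτ0 hf⟩, fun F hF h0 hf hth => ?_⟩
  · rintro ⟨g, ⟨-, hg⟩, K, L, hK, hL, k1, k2, k3, k4⟩
    have h0 : pull (fun x => K (0, x)) τ.1 = τ.1 := by
      have h2 : (fun x => K (0, x)) = g := funext k3
      rw [h2]
      exact hg
    exact joined_fam hc hK h0 (fun t _ => thin_of_pos e hτ0 fun x =>
      Pool.Agent.Q235.MO.rT_isotopy e hτ0 hK hL k1 k2 h0 t x) hf.1 k4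
  · exact of_path e hτ0 hf (joined_fam hc hF h0 hth hf.1 fun _ => rfl)

end Pool.Agent.Results.MP_28b04d_gt.ThinIsotopy
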